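import Pool.Agent.TH709.NC.Lines

/-!
# Pairs of powers at a distance between `y` and `x`
-/

set_option autoImplicit false

namespace Pool.Agent.NH22.NC

open Real Filter Set
open Pool.Agent.H491R3.PE Pool.Agent.TH709.NC

variable {a b : ℝ}

/-- growth of the distance along a line -/
theorem growth {u v : ℝ} (hu : 1 ≤ u) (hv : 1 ≤ v) (g k : ℕ) :
    u ^ k * |u ^ g - v ^ g| ≤ |u ^ (g + k) - v ^ (g + k)| := by
  have hu0 : 0 ≤ u := by linarith
  have hv0 : 0 ≤ v := by linarith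
  rcases le_total v u with h | h
  · have h1 : v ^ g ≤ u ^ g := pow_le_pow_left₀ hv0 h g
    have h2 : v ^ k ≤ u ^ k := pow_le_pow_left₀ hv0 h k
    have h3 : 0 ≤ v ^ g := pow_nonneg hv0 g
    rw [abs_of_nonneg (by linarith)]
    refine le_trans ?_ (le_abs_self _)
    rw [pow_add, pow_add]
    nlinarith [mul_nonneg h3 (sub_nonneg.2 h2)]
  · have h1 : u ^ g ≤ v ^ g := pow_le_pow_left₀ hu0 h g
    have h2 : u ^ k ≤ v ^ k := pow_le_pow_left₀ hu0 h k
    have h3 : 0 ≤ v ^ g := pow_nonneg hv0 g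
    have h4 : 0 ≤ u ^ k := pow_nonneg hu0 k
    rw [abs_sub_comm, abs_of_nonneg (by linarith), abs_sub_comm]
    refine le_trans ?_ (le_abs_self _)
    rw [pow_add, pow_add]
    nlinarith [mul_nonneg h3 (sub_nonneg.2 h2)]

/-- the multiples of a pair at a distance between `y` and `x` are few -/
theorem few_multiples (ha : 1 < a) (hb : 1 < b) {x y : ℝ} (hy : 0 < y) (hyx : y ≤ x)
    (l : ℕ × ℕ) (hl : 1 ≤ l.1) :
    ∃ G : Finset ℕ, ((G.card : ℕ) : ℝ) ≤ 1 + log (x / y) / log a * (1 / l.1) ∧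
      ∀ g : ℕ, y < |a ^ (g * l.1) - b ^ (g * l.2)| → |a ^ (g * l.1) - b ^ (g * l.2)| ≤ x → g ∈ G := by
  classical
  have hA : 0 < log a := log_pos ha
  have hl0 : (0 : ℝ) < l.1 := by exact_mod_cast hl
  have hq : 0 ≤ log (x / y) := log_nonneg ((one_le_div hy).2 hyx)
  by_cases hex : ∃ g : ℕ, y < |a ^ (g * l.1) - b ^ (g * l.2)| ∧
      |a ^ (g * l.1) - b ^ (g * l.2)| ≤ x
  · set g₀ := Nat.find hex with hg₀
    obtain ⟨h1, h2⟩ := Nat.find_spec hex
    rw [← hg₀] at h1 h2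
    set K : ℕ := ⌊log (x / y) / log a * (1 / l.1)⌋₊ with hK
    refine ⟨Finset.Icc g₀ (g₀ + K), ?_, ?_⟩
    · rw [Nat.card_Icc]
      have h3 : g₀ + K + 1 - g₀ = K + 1 := by omega
      rw [h3]
      push_cast
      have h4 : (K : ℝ) ≤ log (x / y) / log a * (1 / l.1) := Nat.floor_le (by positivity)
      linarith
    · intro g h3 h4
      have h5 : g₀ ≤ g := Nat.find_min' hex ⟨h3, h4⟩
      rw [Finset.mem_Icc]
      refine ⟨h5, ?_⟩
      obtain ⟨k, rfl⟩ := Nat.exists_eq_add_of_le h5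
      have h6 : k ≤ K := by
        rw [hK, Nat.le_floor_iff (by positivity)]
        have h7 := growth (u := a ^ l.1) (v := b ^ l.2) (one_le_pow₀ ha.le) (one_le_pow₀ hb.le) g₀ k
        simp only [← pow_mul] at h7
        rw [mul_comm l.1 g₀, mul_comm l.2 g₀, mul_comm l.1 (g₀ + k), mul_comm l.2 (g₀ + k)] at h7
        have h8 : a ^ (l.1 * k) * y ≤ x := by
          refine le_trans (mul_le_mul_of_nonneg_left h1.le (by positivity)) (h7.trans h4)
        have h9 : a ^ (l.1 * k) ≤ x / y := by rwa [le_div_iff₀ hy]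
        have hxy : 0 < x / y := by
          have : 0 < a ^ (l.1 * k) := by positivity
          linarith
        have h10 := (pow_le_iff_log ha hxy _).1 h9
        push_cast at h10
        rw [mul_one_div, le_div_iff₀ hl0]
        linarith
      omega
  · refine ⟨∅, ?_, ?_⟩
    · rw [Finset.card_empty]
      push_cast
      positivity
    · intro g h3 h4
      exact absurd ⟨g, h3, h4⟩ hex

/-- the pairs on the lines, at a distance between `y` and `x` -/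
theorem lines_count (ha : 1 < a) (hb : 1 < b) : ∃ C : ℝ, 0 ≤ C ∧ ∀ x y : ℝ, 2 ≤ x → 0 < y →
    y ≤ x → ∀ T h : ℕ, T ≤ tow h →
    {p : ℕ × ℕ | (p.1 ≤ T ∧ y < |a ^ p.1 - b ^ p.2| ∧ |a ^ p.1 - b ^ p.2| ≤ x) ∧
      x ^ 2 < a ^ p.1}.Finite ∧
    (({p : ℕ × ℕ | (p.1 ≤ T ∧ y < |a ^ p.1 - b ^ p.2| ∧ |a ^ p.1 - b ^ p.2| ≤ x) ∧
      x ^ 2 < a ^ p.1}.ncard : ℕ) : ℝ) ≤ C * (log x + max (-log y) 0 + h) := by
  classical
  have hA : 0 < log a := log_pos ha
  have hl2 : 0 < log 2 := log_pos (by norm_num)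
  obtain ⟨C₁, hC₁⟩ := thin ha hb
  obtain ⟨C₂, hC₂0, hC₂⟩ := sum_LL ha hb
  refine ⟨1 + C₁ / log 2 + C₂ / log a, by positivity, fun x y hx hy hyx T h hT => ?_⟩
  have hx0 : 0 < x := by linarith
  have hlx : log 2 ≤ log x := Real.log_le_log (by norm_num) hx
  have hF := LL_fin ha hb (tow h)
  have hF1 : ∀ l ∈ hF.toFinset, l ∈ LL a b ∧ l.1 ≤ tow h := fun l hl => by
    simpa using hl
  choose! G hG1 hG2 using fun (l : ℕ × ℕ) (hl : 1 ≤ l.1) => few_multiples ha hb hy hyx l hl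
  set H : Finset (ℕ × ℕ) := hF.toFinset.biUnion
    fun l => (G l).image fun g => (g * l.1, g * l.2) with hH
  have hsub : {p : ℕ × ℕ | (p.1 ≤ T ∧ y < |a ^ p.1 - b ^ p.2| ∧ |a ^ p.1 - b ^ p.2| ≤ x) ∧
      x ^ 2 < a ^ p.1} ⊆ (H : Set (ℕ × ℕ)) := by
    rintro p ⟨⟨h1, h2, h3⟩, h4⟩
    obtain ⟨l, hl, g, rfl⟩ := on_of_large ha hb hx h3 h4
    have hg : g ≠ 0 := by
      rintro rfl
      simp only [zero_mul, pow_zero] at h4
      nlinarith
    rw [Finset.mem_coe, hH, Finset.mem_biUnion]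
    refine ⟨l, ?_, ?_⟩
    · rw [Set.Finite.mem_toFinset]
      refine ⟨hl, ?_⟩
      exact (Nat.le_mul_of_pos_left _ (Nat.pos_of_ne_zero hg)).trans (h1.trans hT)
    · rw [Finset.mem_image]
      exact ⟨g, hG2 l hl.1 g h2 h3, rfl⟩
  refine ⟨(Finset.finite_toSet H).subset hsub, ?_⟩
  have h1 : {p : ℕ × ℕ | (p.1 ≤ T ∧ y < |a ^ p.1 - b ^ p.2| ∧ |a ^ p.1 - b ^ p.2| ≤ x) ∧
      x ^ 2 < a ^ p.1}.ncard ≤ H.card := by
    refine (Set.ncard_le_ncard hsub (Finset.finite_toSet _)).trans ?_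
    rw [Set.ncard_coe_finset]
  have h2 : (H.card : ℝ) ≤ ∑ l ∈ hF.toFinset, (1 + log (x / y) / log a * (1 / l.1)) := by
    have h3 : (H.card : ℝ) ≤ ∑ l ∈ hF.toFinset, ((G l).card : ℝ) := by
      have h31 : H.card ≤ ∑ l ∈ hF.toFinset,
          ((G l).image fun g => (g * l.1, g * l.2)).card := Finset.card_biUnion_le
      have h32 : ∑ l ∈ hF.toFinset, ((G l).image fun g => (g * l.1, g * l.2)).card ≤
          ∑ l ∈ hF.toFinset, (G l).card := Finset.sum_le_sum fun l _ => Finset.card_image_le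
      exact_mod_cast h31.trans h32
    refine h3.trans (Finset.sum_le_sum fun l hl => ?_)
    exact hG1 l (hF1 l hl).1.1
  rw [Finset.sum_add_distrib, Finset.sum_const, nsmul_eq_mul, mul_one, ← Finset.mul_sum] at h2
  have h4 : (hF.toFinset.card : ℝ) ≤ h + C₁ := by
    have := hC₁ h
    rw [Set.ncard_eq_toFinset_card _ hF] at this
    exact_mod_cast this
  have h5 := hC₂ hF.toFinset (fun l hl => (hF1 l hl).1)
  have hq : 0 ≤ log (x / y) := log_nonneg ((one_le_div hy).2 hyx)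
  have h6 : log (x / y) ≤ log x + max (-log y) 0 := by
    rw [Real.log_div hx0.ne' hy.ne']
    linarith [le_max_left (-log y) 0]
  have h7 : log (x / y) / log a * ∑ l ∈ hF.toFinset, (1 : ℝ) / l.1 ≤
      (log x + max (-log y) 0) / log a * C₂ := by
    refine mul_le_mul (by gcongr) h5 (Finset.sum_nonneg fun _ _ => by positivity) ?_
    have h71 : 0 ≤ max (-log y) 0 := le_max_right _ _
    have h72 : 0 < log x := by linarith
    positivity
  have h8 : (C₁ : ℝ) ≤ C₁ / log 2 * log x := by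
    rw [div_mul_eq_mul_div, le_div_iff₀ hl2]
    exact mul_le_mul_of_nonneg_left hlx (Nat.cast_nonneg _)
  have hm : 0 ≤ max (-log y) 0 := le_max_right _ _
  have hx' : 0 < log x := by linarith
  have h9 : (({p : ℕ × ℕ | (p.1 ≤ T ∧ y < |a ^ p.1 - b ^ p.2| ∧ |a ^ p.1 - b ^ p.2| ≤ x) ∧
      x ^ 2 < a ^ p.1}.ncard : ℕ) : ℝ) ≤ H.card := by exact_mod_cast h1
  have hh : (0 : ℝ) ≤ h := Nat.cast_nonneg _
  have hC1' : (0 : ℝ) ≤ C₁ / log 2 := by positivity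
  have hC2' : (0 : ℝ) ≤ C₂ / log a := by positivity
  have e : (1 + C₁ / log 2 + C₂ / log a) * (log x + max (-log y) 0 + h) =
      h + C₁ / log 2 * log x + (log x + max (-log y) 0) / log a * C₂ +
      (log x + max (-log y) 0) + C₁ / log 2 * (max (-log y) 0 + h) + C₂ / log a * h := by
    ring
  rw [e]
  have h10 : 0 ≤ C₁ / log 2 * (max (-log y) 0 + h) := by positivity
  have h11 : 0 ≤ C₂ / log a * (h : ℝ) := by positivity
  linarith

/-- the pairs at distance at most `z` with `z ^ 2 < a ^ n ≤ x ^ 2` -/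
theorem middle (ha : 1 < a) (hb : 1 < b) : ∃ C : ℝ, 0 ≤ C ∧ ∀ x z : ℝ, 2 ≤ z → z ≤ x →
    {p : ℕ × ℕ | |a ^ p.1 - b ^ p.2| ≤ z ∧ z ^ 2 < a ^ p.1 ∧ a ^ p.1 ≤ x ^ 2}.Finite ∧
    (({p : ℕ × ℕ | |a ^ p.1 - b ^ p.2| ≤ z ∧ z ^ 2 < a ^ p.1 ∧ a ^ p.1 ≤ x ^ 2}.ncard : ℕ) : ℝ)
      ≤ C * log x := by
  have hA : 0 < log a := log_pos ha
  have hB : 0 < log b := log_pos hb
  have hl2 : 0 < log 2 := log_pos (by norm_num)
  have hl3 : 0 < log 3 := log_pos (by norm_num)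
  refine ⟨(2 / log a + 1 / log 2) * (log 3 / log b + 1), by positivity, fun x z hz hzx => ?_⟩
  have hx : 2 ≤ x := hz.trans hzx
  have hlx : log 2 ≤ log x := Real.log_le_log (by norm_num) hx
  have hlx0 : 0 < log x := by linarith
  have lx2 : log (x ^ 2) = 2 * log x := by rw [Real.log_pow]; norm_num
  have h := set_count (S := {p : ℕ × ℕ | |a ^ p.1 - b ^ p.2| ≤ z ∧ z ^ 2 < a ^ p.1 ∧
      a ^ p.1 ≤ x ^ 2}) (u := 0) (L := 2 * (log x / log a)) (L2 := log 3 / log b)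
    (f := fun n => (n : ℝ) * log a / log b - log 2 / log b)
    (by positivity) (by positivity) (by
      rintro p ⟨h1, h2, h3⟩
      have h5 := (pow_le_iff_log ha (by positivity) p.1).1 h3
      rw [lx2, mul_div_assoc] at h5
      obtain ⟨h6, h7⟩ := m_window ha hb (x := z) (by nlinarith) h1
      refine ⟨by positivity, by rw [zero_add]; exact h5, h6, h7⟩)
  refine ⟨h.1, h.2.trans ?_⟩
  have h1 : (1 : ℝ) ≤ 1 / log 2 * log x := by
    rw [div_mul_eq_mul_div, le_div_iff₀ hl2]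
    linarith
  have h2 : 2 * (log x / log a) + 1 ≤ (2 / log a + 1 / log 2) * log x := by
    have e : (2 / log a + 1 / log 2) * log x = 2 * (log x / log a) + 1 / log 2 * log x := by ring
    rw [e]
    linarith
  calc (2 * (log x / log a) + 1) * (log 3 / log b + 1)
      ≤ ((2 / log a + 1 / log 2) * log x) * (log 3 / log b + 1) :=
        mul_le_mul_of_nonneg_right h2 (by positivity)
    _ = _ := by ring

/-- the pairs with `a ^ n ≤ x ^ 2` at a distance at most `y` -/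
theorem close_count (ha : 1 < a) (hb : 1 < b) : ∃ C : ℝ, 0 ≤ C ∧ ∀ x y : ℝ, 2 ≤ x → 0 < y →
    y ≤ x →
    |(({p : ℕ × ℕ | |a ^ p.1 - b ^ p.2| ≤ y ∧ a ^ p.1 ≤ x ^ 2}.ncard : ℕ) : ℝ) -
      (max (log y) 0) ^ 2 / (log a * log b)| ≤ C * log x := by
  have hA : 0 < log a := log_pos ha
  have hB : 0 < log b := log_pos hb
  have hl2 : 0 < log 2 := log_pos (by norm_num)
  obtain ⟨C₁, hC₁0, hC₁⟩ := NB_count ha hb
  obtain ⟨C₂, hC₂0, hC₂⟩ := middle ha hb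
  refine ⟨C₁ + C₂ + log 2 / (log a * log b), by positivity, fun x y hx hy hyx => ?_⟩
  have hlx : log 2 ≤ log x := Real.log_le_log (by norm_num) hx
  have hlx0 : 0 < log x := by linarith
  set S := {p : ℕ × ℕ | |a ^ p.1 - b ^ p.2| ≤ y ∧ a ^ p.1 ≤ x ^ 2} with hS
  -- comparison with the parameter `z = max y 2`
  have key : ∀ z : ℝ, 2 ≤ z → z ≤ x →
      {p : ℕ × ℕ | |a ^ p.1 - b ^ p.2| ≤ z ∧ a ^ p.1 ≤ x ^ 2}.Finite ∧
      (({p : ℕ × ℕ | |a ^ p.1 - b ^ p.2| ≤ z ∧ a ^ p.1 ≤ x ^ 2}.ncard : ℕ) : ℝ) ≤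
        (NB a b z).ncard + C₂ * log x ∧
      ((NB a b z).ncard : ℝ) ≤
        (({p : ℕ × ℕ | |a ^ p.1 - b ^ p.2| ≤ z ∧ a ^ p.1 ≤ x ^ 2}.ncard : ℕ) : ℝ) := by
    intro z hz hzx
    obtain ⟨f1, -⟩ := hC₁ z hz
    obtain ⟨f2, h2⟩ := hC₂ x z hz hzx
    have e : {p : ℕ × ℕ | |a ^ p.1 - b ^ p.2| ≤ z ∧ a ^ p.1 ≤ x ^ 2} =
        NB a b z ∪ {p : ℕ × ℕ | |a ^ p.1 - b ^ p.2| ≤ z ∧ z ^ 2 < a ^ p.1 ∧
          a ^ p.1 ≤ x ^ 2} := by
      ext p
      simp only [mem_union, mem_ofPred_eq, NB]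
      constructor
      · rintro ⟨h3, h4⟩
        rcases le_or_gt (a ^ p.1) (z ^ 2) with h5 | h5
        · exact Or.inl ⟨h3, h5⟩
        · exact Or.inr ⟨h3, h5, h4⟩
      · rintro (⟨h3, h4⟩ | ⟨h3, h4, h5⟩)
        · exact ⟨h3, h4.trans (pow_le_pow_left₀ (by linarith) hzx 2)⟩
        · exact ⟨h3, h5⟩
    rw [e]
    refine ⟨f1.union f2, ?_, ?_⟩
    · have h3 := Set.ncard_union_le (NB a b z) {p : ℕ × ℕ | |a ^ p.1 - b ^ p.2| ≤ z ∧
        z ^ 2 < a ^ p.1 ∧ a ^ p.1 ≤ x ^ 2}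
      have h4 : (((NB a b z ∪ {p : ℕ × ℕ | |a ^ p.1 - b ^ p.2| ≤ z ∧ z ^ 2 < a ^ p.1 ∧
          a ^ p.1 ≤ x ^ 2}).ncard : ℕ) : ℝ) ≤ (NB a b z).ncard +
          (({p : ℕ × ℕ | |a ^ p.1 - b ^ p.2| ≤ z ∧ z ^ 2 < a ^ p.1 ∧
          a ^ p.1 ≤ x ^ 2}.ncard : ℕ) : ℝ) := by exact_mod_cast h3
      linarith
    · exact_mod_cast Set.ncard_le_ncard Set.subset_union_left (f1.union f2)
  rcases le_total 2 y with h2y | h2y
  · obtain ⟨-, h1, h2⟩ := key y h2y hyx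
    obtain ⟨-, h3⟩ := hC₁ y h2y
    have hly0 : 0 ≤ log y := log_nonneg (by linarith)
    have hly : log y ≤ log x := Real.log_le_log hy hyx
    rw [max_eq_left hly0]
    have h4 : 0 ≤ log 2 / (log a * log b) * log x := by positivity
    have h5 : C₁ * log y ≤ C₁ * log x := mul_le_mul_of_nonneg_left hly hC₁0
    have e1 : (C₁ + C₂ + log 2 / (log a * log b)) * log x =
      C₁ * log x + C₂ * log x + log 2 / (log a * log b) * log x := by ring
    have h6 : 0 ≤ C₂ * log x := by positivity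
    rw [e1]
    rw [abs_le] at h3 ⊢
    constructor <;> linarith [h3.1, h3.2]
  · obtain ⟨f0, h1, h2⟩ := key 2 le_rfl hx
    obtain ⟨-, h3⟩ := hC₁ 2 le_rfl
    have hsub : S ⊆ {p : ℕ × ℕ | |a ^ p.1 - b ^ p.2| ≤ 2 ∧ a ^ p.1 ≤ x ^ 2} :=
      fun p hp => ⟨hp.1.trans h2y, hp.2⟩
    have h4 : (S.ncard : ℝ) ≤
        (({p : ℕ × ℕ | |a ^ p.1 - b ^ p.2| ≤ 2 ∧ a ^ p.1 ≤ x ^ 2}.ncard : ℕ) : ℝ) := by
      exact_mod_cast Set.ncard_le_ncard hsub f0
    have h5 : 0 ≤ max (log y) 0 := le_max_right _ _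
    have h6 : max (log y) 0 ≤ log 2 := max_le (Real.log_le_log hy h2y) hl2.le
    have h7 : (max (log y) 0) ^ 2 ≤ log 2 ^ 2 := pow_le_pow_left₀ h5 h6 2
    have hAB : 0 < log a * log b := by positivity
    have h8 : (max (log y) 0) ^ 2 / (log a * log b) ≤ log 2 / (log a * log b) * log x := by
      rw [div_mul_eq_mul_div, div_le_div_iff_of_pos_right hAB]
      calc (max (log y) 0) ^ 2 ≤ log 2 ^ 2 := h7
        _ = log 2 * log 2 := sq _
        _ ≤ log 2 * log x := mul_le_mul_of_nonneg_left hlx hl2.le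
    have h9 : log 2 ^ 2 / (log a * log b) ≤ log 2 / (log a * log b) * log x := by
      rw [div_mul_eq_mul_div, div_le_div_iff_of_pos_right hAB, sq]
      exact mul_le_mul_of_nonneg_left hlx hl2.le
    have h10 : C₁ * log 2 ≤ C₁ * log x := mul_le_mul_of_nonneg_left hlx hC₁0
    have h11 : 0 ≤ (max (log y) 0) ^ 2 / (log a * log b) := by positivity
    have h12 : (0 : ℝ) ≤ S.ncard := Nat.cast_nonneg _
    have h13 : 0 ≤ C₂ * log x := by positivity
    have h14 : 0 ≤ C₁ * log x := by positivity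
    have e1 : (C₁ + C₂ + log 2 / (log a * log b)) * log x =
      C₁ * log x + C₂ * log x + log 2 / (log a * log b) * log x := by ring
    rw [e1]
    rw [abs_le] at h3 ⊢
    constructor <;> linarith [h3.1, h3.2]

/-- **Main theorem.** -/
theorem cut (ha : 1 < a) (hb : 1 < b) : ∃ C : ℝ, 0 < C ∧ ∀ x y : ℝ, 2 ≤ x → 0 < y →
    y ≤ x → ∀ T h : ℕ, C * log x ≤ T → T ≤ tow h →
    {p : ℕ × ℕ | p.1 ≤ T ∧ y < |a ^ p.1 - b ^ p.2| ∧ |a ^ p.1 - b ^ p.2| ≤ x}.Finite ∧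
    |(({p : ℕ × ℕ | p.1 ≤ T ∧ y < |a ^ p.1 - b ^ p.2| ∧ |a ^ p.1 - b ^ p.2| ≤ x}.ncard : ℕ) : ℝ) -
      (log x ^ 2 - (max (log y) 0) ^ 2) / (log a * log b)| ≤
      C * (log x + max (-log y) 0 + h) := by
  have hA : 0 < log a := log_pos ha
  have hB : 0 < log b := log_pos hb
  have hl2 : 0 < log 2 := log_pos (by norm_num)
  obtain ⟨C₁, hC₁0, hC₁⟩ := NB_count ha hb
  obtain ⟨C₂, hC₂0, hC₂⟩ := close_count ha hb
  obtain ⟨C₃, hC₃0, hC₃⟩ := lines_count ha hb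
  refine ⟨C₁ + C₂ + C₃ + 2 / log a, by positivity, fun x y hx hy hyx T h hCT hT => ?_⟩
  have hx0 : 0 < x := by linarith
  have hlx : log 2 ≤ log x := Real.log_le_log (by norm_num) hx
  have hlx0 : 0 < log x := by linarith
  obtain ⟨f1, h1⟩ := hC₁ x hx
  have h2 := hC₂ x y hx hy hyx
  obtain ⟨f3, h3⟩ := hC₃ x y hx hy hyx T h hT
  set S := {p : ℕ × ℕ | p.1 ≤ T ∧ y < |a ^ p.1 - b ^ p.2| ∧ |a ^ p.1 - b ^ p.2| ≤ x} with hS
  set S3 := {p : ℕ × ℕ | (p.1 ≤ T ∧ y < |a ^ p.1 - b ^ p.2| ∧ |a ^ p.1 - b ^ p.2| ≤ x) ∧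
      x ^ 2 < a ^ p.1} with hS3
  set S2 := {p : ℕ × ℕ | |a ^ p.1 - b ^ p.2| ≤ y ∧ a ^ p.1 ≤ x ^ 2} with hS2
  have hTT : 2 * log x / log a ≤ T := by
    refine le_trans ?_ hCT
    have e : (C₁ + C₂ + C₃ + 2 / log a) * log x =
      (C₁ + C₂ + C₃) * log x + 2 * log x / log a := by ring
    rw [e]
    have : 0 ≤ (C₁ + C₂ + C₃) * log x := by positivity
    linarith
  have lx2 : log (x ^ 2) = 2 * log x := by rw [Real.log_pow]; norm_num
  have hdec : S = (NB a b x \ S2) ∪ S3 := by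
    ext p
    simp only [mem_union, Set.mem_sdiff, hS, hS2, hS3, mem_ofPred_eq, NB]
    constructor
    · rintro ⟨h4, h5, h6⟩
      rcases le_or_gt (a ^ p.1) (x ^ 2) with h7 | h7
      · exact Or.inl ⟨⟨h6, h7⟩, fun h8 => absurd h8.1 (not_le.2 h5)⟩
      · exact Or.inr ⟨⟨h4, h5, h6⟩, h7⟩
    · rintro (⟨⟨h4, h5⟩, h6⟩ | ⟨h4, -⟩)
      · refine ⟨?_, ?_, h4⟩
        · have h7 := (pow_le_iff_log ha (by positivity) p.1).1 h5
          rw [lx2] at h7
          exact_mod_cast h7.trans hTT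
        · by_contra h8
          exact h6 ⟨not_lt.1 h8, h5⟩
      · exact h4
  have f4 : (NB a b x \ S2).Finite := f1.subset Set.sdiff_subset
  rw [hdec]
  refine ⟨f4.union f3, ?_⟩
  have h5 : (((NB a b x \ S2) ∪ S3).ncard : ℝ) = (NB a b x \ S2).ncard + S3.ncard := by
    have hdis : Disjoint (NB a b x \ S2) S3 := by
      rw [Set.disjoint_left]
      rintro p ⟨hp, -⟩ hp3
      exact absurd hp3.2 (not_lt.2 hp.2)
    have := Set.ncard_union_eq hdis f4 f3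
    exact_mod_cast this
  have h6 : ((NB a b x \ S2).ncard : ℝ) + S2.ncard = (NB a b x).ncard := by
    have hsub : S2 ⊆ NB a b x := fun p hp => ⟨hp.1.trans hyx, hp.2⟩
    have := Set.ncard_sdiff_add_ncard_of_subset hsub f1
    exact_mod_cast this
  rw [h5]
  have hm : 0 ≤ max (-log y) 0 := le_max_right _ _
  have hh : (0 : ℝ) ≤ h := Nat.cast_nonneg _
  have h7 : (0 : ℝ) ≤ S3.ncard := Nat.cast_nonneg _
  have e2 : (log x ^ 2 - (max (log y) 0) ^ 2) / (log a * log b) =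
    log x ^ 2 / (log a * log b) - (max (log y) 0) ^ 2 / (log a * log b) := by ring
  rw [e2]
  have e3 : (C₁ + C₂ + C₃ + 2 / log a) * (log x + max (-log y) 0 + h) =
      C₁ * log x + C₂ * log x + C₃ * (log x + max (-log y) 0 + h) +
      ((C₁ + C₂) * (max (-log y) 0 + h) + 2 / log a * (log x + max (-log y) 0 + h)) := by ring
  have h8 : 0 ≤ (C₁ + C₂) * (max (-log y) 0 + h) +
      2 / log a * (log x + max (-log y) 0 + h) := by positivity
  have h9 : 0 ≤ C₃ * (log x + max (-log y) 0 + h) := by positivity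
  rw [e3]
  rw [abs_le] at h1 h2 ⊢
  constructor <;> linarith [h1.1, h1.2, h2.1, h2.2]

end Pool.Agent.NH22.NC
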