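import Pool.Agent.NH22.NC.Scale2
import Mathlib.Topology.Instances.Irrational
import Mathlib.Topology.GDelta.Basic

/-!
# Generic bases
-/

set_option autoImplicit false

namespace Pool.Agent.NH22.NC

open Real Filter Set Topology
open Pool.Agent.H491R3.PE Pool.Agent.TH709.NC

variable {a b : ℝ}

/-- bases with very close powers -/
def UU (b : ℝ) (k : ℕ) : Set ℝ :=
  Iio 1 ∪ {a | 1 < a ∧ ∃ q : ℕ, k ≤ q ∧ 1 ≤ q ∧ ∃ p : ℕ, ∀ g : ℕ, g ≤ q ^ k →
    |a ^ (g * q) - b ^ (g * p)| < 1 / (q : ℝ) ^ k}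

theorem UU_open (b : ℝ) (k : ℕ) : IsOpen (UU b k) := by
  have e : UU b k = Iio 1 ∪ (Ioi 1 ∩ ⋃ q : ℕ, ⋃ _ : k ≤ q, ⋃ _ : 1 ≤ q, ⋃ p : ℕ,
      ⋂ g ∈ Iic (q ^ k), {a : ℝ | |a ^ (g * q) - b ^ (g * p)| < 1 / (q : ℝ) ^ k}) := by
    ext a
    simp only [UU, mem_union, mem_Iio, mem_ofPred_eq, mem_inter_iff, mem_Ioi, mem_iUnion, mem_iInter,
      mem_Iic, exists_prop]
  rw [e]
  refine isOpen_Iio.union (isOpen_Ioi.inter ?_)
  refine isOpen_iUnion fun q => isOpen_iUnion fun _ => isOpen_iUnion fun _ =>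
    isOpen_iUnion fun p => (Set.finite_Iic _).isOpen_biInter fun g _ => ?_
  exact isOpen_lt (by fun_prop) continuous_const

theorem UU_dense (hb : 1 < b) (k : ℕ) : Dense (UU b k) := by
  have hB : 0 < log b := log_pos hb
  refine Real.isTopologicalBasis_Ioo_rat.dense_iff.2 ?_
  simp only [mem_iUnion, mem_singleton_iff, exists_prop, forall_exists_index, and_imp]
  rintro _ s t hst rfl hne
  have hst' : (s : ℝ) < t := by exact_mod_cast hst
  rcases lt_or_ge (s : ℝ) 1 with h1 | h1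
  · obtain ⟨c, hc1, hc2⟩ := exists_between (lt_min hst' h1)
    exact ⟨c, ⟨hc1, hc2.trans_le (min_le_left _ _)⟩, Or.inl (hc2.trans_le (min_le_right _ _))⟩
  · have hs0 : (0 : ℝ) < s := by linarith
    have hlog : log (s : ℝ) / log b < log (t : ℝ) / log b :=
      div_lt_div_of_pos_right (Real.log_lt_log hs0 hst') hB
    obtain ⟨r, hr1, hr2⟩ := exists_rat_btwn hlog
    have hr0 : (0 : ℝ) < r := lt_of_le_of_lt (div_nonneg (log_nonneg h1) hB.le) hr1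
    have hr0' : 0 < r := by exact_mod_cast hr0
    set a : ℝ := exp (r * log b) with ha
    have hloga : log a = r * log b := Real.log_exp _
    have ha0 : 0 < a := exp_pos _
    have ha1 : 1 < a := by rw [ha, Real.one_lt_exp_iff]; positivity
    have hsa : (s : ℝ) < a := by
      rw [← Real.log_lt_log_iff hs0 ha0, hloga]
      rwa [div_lt_iff₀ hB] at hr1
    have hat : a < t := by
      rw [← Real.log_lt_log_iff ha0 (by linarith), hloga]
      rwa [lt_div_iff₀ hB] at hr2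
    refine ⟨a, ⟨hsa, hat⟩, Or.inr ⟨ha1, r.den * (k + 1), ?_, ?_, r.num.toNat * (k + 1), ?_⟩⟩
    · calc k ≤ 1 * (k + 1) := by omega
        _ ≤ r.den * (k + 1) := Nat.mul_le_mul_right _ r.pos
    · exact Nat.mul_pos r.pos (by omega)
    · intro g _
      have hnum : ((r.num.toNat : ℕ) : ℝ) = (r.num : ℝ) := by
        have h2 : ((r.num.toNat : ℕ) : ℤ) = r.num := Int.toNat_of_nonneg (Rat.num_nonneg.2 hr0'.le)
        exact_mod_cast congrArg (fun z : ℤ => (z : ℝ)) h2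
      have hr : (r : ℝ) * r.den = r.num := by
        have h2 := Rat.mul_den_eq_num r
        exact_mod_cast congrArg (fun z : ℚ => (z : ℝ)) h2
      have h3 : a ^ (g * (r.den * (k + 1))) = b ^ (g * (r.num.toNat * (k + 1))) := by
        have hb0 : 0 < b := by linarith
        rw [← Real.exp_log (pow_pos ha0 _), ← Real.exp_log (pow_pos hb0 _), Real.log_pow,
          Real.log_pow, hloga]
        congr 1
        push_cast
        rw [hnum, ← hr]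
        ring
      rw [h3, sub_self, abs_zero]
      have : 0 < ((r.den * (k + 1) : ℕ) : ℝ) := by exact_mod_cast Nat.mul_pos r.pos (by omega)
      positivity

theorem irr_residual (hb : 1 < b) : ∀ᶠ a : ℝ in residual ℝ, 1 < a → Irrational (log a / log b) := by
  have hB : 0 < log b := log_pos hb
  set S : Set ℝ := Set.range (fun r : ℚ => exp (r * log b)) with hS
  have hc : S.Countable := Set.countable_range _
  have h1 : Sᶜ ∈ residual ℝ := residual_of_dense_Gδ hc.isGδ_compl (hc.dense_compl ℝ)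
  filter_upwards [h1] with a ha ha1
  rintro ⟨r, hr⟩
  refine ha ⟨r, ?_⟩
  show exp (r * log b) = a
  rw [hr, div_mul_cancel₀ _ hB.ne', Real.exp_log (by linarith)]

theorem box_fin (ha : 1 < a) (hb : 1 < b) (x y : ℝ) :
    {p : ℕ × ℕ | (p.1 : ℝ) ≤ x ∧ |a ^ p.1 - b ^ p.2| ≤ y}.Finite := by
  set N := ⌈x⌉₊ with hN
  refine (box_count ha hb (x := max 2 (a ^ N + |y|)) (le_max_left _ _)).1.subset ?_
  rintro p ⟨h1, h2⟩
  have h3 : p.1 ≤ N := by
    have : (p.1 : ℝ) ≤ N := h1.trans (Nat.le_ceil _)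
    exact_mod_cast this
  have h4 : a ^ p.1 ≤ a ^ N := pow_le_pow_right₀ ha.le h3
  have h5 : y ≤ |y| := le_abs_self y
  rw [abs_le] at h2
  have h6 := abs_nonneg y
  exact ⟨(by linarith : a ^ p.1 ≤ a ^ N + |y|).trans (le_max_right _ _),
    (by linarith [h2.1] : b ^ p.2 ≤ a ^ N + |y|).trans (le_max_right _ _)⟩

/-- for a generic base there are long intervals of scales with too many pairs -/
theorem bad (ha : 1 < a) (hb : 1 < b) (hU : ∀ k : ℕ, a ∈ UU b k) (ε X₀ : ℝ) (hε : 0 < ε) :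
    ∃ X : ℝ, X₀ ≤ X ∧ 1 ≤ X ∧ ∀ x : ℝ, X ^ ε ≤ x → x ≤ X →
      {p : ℕ × ℕ | (p.1 : ℝ) ≤ x ∧ |a ^ p.1 - b ^ p.2| ≤ 1 / x}.Finite ∧
      √x - 1 ≤ (({p : ℕ × ℕ | (p.1 : ℝ) ≤ x ∧ |a ^ p.1 - b ^ p.2| ≤ 1 / x}.ncard : ℕ) : ℝ) := by
  obtain ⟨k₁, hk₁⟩ := exists_nat_ge (2 / ε)
  obtain ⟨k₂, hk₂⟩ := exists_nat_ge X₀
  set k := max (max k₁ k₂) 2 with hk
  rcases hU k with h | ⟨-, q, hkq, hq1, p, hp⟩
  · exact absurd h (not_lt.2 ha.le)
  have hq2 : 2 ≤ q := le_trans (le_max_right _ _) hkq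
  have hq0 : (0 : ℝ) < q := by exact_mod_cast (by omega : 0 < q)
  have hq1' : (1 : ℝ) ≤ q := by exact_mod_cast (by omega : 1 ≤ q)
  have hkε : 2 ≤ (k : ℝ) * ε := by
    have h1 : (2 / ε : ℝ) ≤ k := hk₁.trans (by exact_mod_cast ((le_max_left _ _).trans (le_max_left _ _)))
    rwa [div_le_iff₀ hε] at h1
  have hXq : (q : ℝ) ≤ (q : ℝ) ^ k := by
    calc (q : ℝ) = (q : ℝ) ^ 1 := (pow_one _).symm
      _ ≤ (q : ℝ) ^ k := pow_le_pow_right₀ hq1' (le_trans (by norm_num) (le_max_right _ _))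
  refine ⟨(q : ℝ) ^ k, ?_, hq1'.trans hXq, fun x hx1 hx2 => ?_⟩
  · refine hk₂.trans (le_trans ?_ hXq)
    exact_mod_cast ((le_max_right _ _).trans (le_max_left _ _)).trans hkq
  have hxq : (q : ℝ) ^ 2 ≤ x := by
    refine le_trans ?_ hx1
    rw [← Real.rpow_natCast, ← Real.rpow_natCast, ← Real.rpow_mul hq0.le]
    exact Real.rpow_le_rpow_of_exponent_le hq1' (by push_cast; exact hkε)
  have hx0 : 0 < x := lt_of_lt_of_le (by positivity) hxq
  have hfin := box_fin ha hb x (1 / x)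
  refine ⟨hfin, ?_⟩
  set N := ⌊x / q⌋₊ with hN
  have hNx : (N : ℝ) ≤ x / q := Nat.floor_le (by positivity)
  have hNx' : x / q < N + 1 := Nat.lt_floor_add_one _
  have hinj : Set.InjOn (fun g : ℕ => (g * q, g * p)) (Set.Ioc 0 N) := by
    intro g _ g' _ h
    have h1 : g * q = g' * q := congrArg Prod.fst h
    exact Nat.eq_of_mul_eq_mul_right (by omega) h1
  have hsub : (fun g : ℕ => (g * q, g * p)) '' (Set.Ioc 0 N) ⊆
      {p : ℕ × ℕ | (p.1 : ℝ) ≤ x ∧ |a ^ p.1 - b ^ p.2| ≤ 1 / x} := by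
    rintro _ ⟨g, ⟨-, hg⟩, rfl⟩
    have hgN : (g : ℝ) ≤ x / q := le_trans (by exact_mod_cast hg) hNx
    have hgx : ((g * q : ℕ) : ℝ) ≤ x := by
      push_cast
      rwa [le_div_iff₀ hq0] at hgN
    have hgk : g ≤ q ^ k := by
      have h1 : (g : ℝ) ≤ (q : ℝ) ^ k := by
        refine hgN.trans ((div_le_self hx0.le hq1').trans hx2)
      exact_mod_cast h1
    refine ⟨hgx, (hp g hgk).le.trans ?_⟩
    exact one_div_le_one_div_of_le hx0 hx2
  have h1 := Set.ncard_le_ncard hsub hfin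
  rw [hinj.ncard_image] at h1
  have h2 : (Set.Ioc 0 N).ncard = N := by
    rw [← Finset.coe_Ioc, Set.ncard_coe_finset, Nat.card_Ioc, Nat.sub_zero]
  rw [h2] at h1
  have h3 : √x ≤ x / q := by
    rw [le_div_iff₀ hq0]
    have h4 : (q : ℝ) ≤ √x := by
      rw [Real.le_sqrt hq0.le hx0.le]
      exact hxq
    calc √x * q ≤ √x * √x := mul_le_mul_of_nonneg_left h4 (Real.sqrt_nonneg _)
      _ = x := Real.mul_self_sqrt hx0.le
  have h5 : (N : ℝ) ≤ (({p : ℕ × ℕ | (p.1 : ℝ) ≤ x ∧ |a ^ p.1 - b ^ p.2| ≤ 1 / x}.ncard : ℕ) : ℝ) := by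
    exact_mod_cast h1
  linarith

/-- **Generic bases.** -/
theorem generic (hb : 1 < b) : ∀ᶠ a : ℝ in residual ℝ, 1 < a →
    Irrational (log a / log b) ∧
    (∀ x : ℝ, 0 < x → {p : ℕ × ℕ | |a ^ p.1 - b ^ p.2| ≤ x}.Infinite) ∧
    ∀ ε X₀ : ℝ, 0 < ε → ∃ X : ℝ, X₀ ≤ X ∧ ∀ x : ℝ, X ^ ε ≤ x → x ≤ X →
      {p : ℕ × ℕ | (p.1 : ℝ) ≤ x ∧ |a ^ p.1 - b ^ p.2| ≤ 1 / x}.Finite ∧
      √x - 1 ≤ (({p : ℕ × ℕ | (p.1 : ℝ) ≤ x ∧ |a ^ p.1 - b ^ p.2| ≤ 1 / x}.ncard : ℕ) : ℝ) := by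
  have h1 : ∀ᶠ a : ℝ in residual ℝ, ∀ k : ℕ, a ∈ UU b k :=
    eventually_countable_forall.2 fun k => residual_of_dense_open (UU_open b k) (UU_dense hb k)
  filter_upwards [h1, irr_residual hb] with a hU hirr ha
  refine ⟨hirr ha, fun x hx hfin => ?_, fun ε X₀ hε => ?_⟩
  · set M := {p : ℕ × ℕ | |a ^ p.1 - b ^ p.2| ≤ x}.ncard with hM
    obtain ⟨X, hX1, hX2, hX3⟩ := bad ha hb hU 1 (max (1 / x) (((M : ℝ) + 2) ^ 2)) one_pos
    obtain ⟨-, h4⟩ := hX3 X (by rw [Real.rpow_one]) le_rfl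
    have hX0 : 0 < X := by linarith
    have hxX : 1 / X ≤ x := by
      rw [div_le_iff₀ hX0]
      have h5 : 1 / x ≤ X := (le_max_left _ _).trans hX1
      rw [div_le_iff₀ hx] at h5
      linarith
    have h5 : {p : ℕ × ℕ | (p.1 : ℝ) ≤ X ∧ |a ^ p.1 - b ^ p.2| ≤ 1 / X}.ncard ≤ M :=
      Set.ncard_le_ncard (fun p hp => hp.2.trans hxX) hfin
    have h6 : (M : ℝ) + 2 ≤ √X := by
      rw [Real.le_sqrt (by positivity) hX0.le]
      exact (le_max_right _ _).trans hX1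
    have h7 : (({p : ℕ × ℕ | (p.1 : ℝ) ≤ X ∧ |a ^ p.1 - b ^ p.2| ≤ 1 / X}.ncard : ℕ) : ℝ) ≤ M := by
      exact_mod_cast h5
    linarith
  · obtain ⟨X, hX1, -, hX3⟩ := bad ha hb hU ε X₀ hε
    exact ⟨X, hX1, hX3⟩

end Pool.Agent.NH22.NC
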