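import Pool.Agent.NH22.NC.Cut

/-!
# The count of the pairs with `n ≤ T` at most scales
-/

set_option autoImplicit false

namespace Pool.Agent.NH22.NC

open Real Filter Set
open Pool.Agent.H491R3.PE Pool.Agent.TH709.NC

variable {a b : ℝ}

theorem LL_pos (ha : 1 < a) (hb : 1 < b) (hirr : Irrational (log a / log b)) {l : ℕ × ℕ}
    (hl : l ∈ LL a b) : 0 < |a ^ l.1 - b ^ l.2| := by
  rw [abs_pos, sub_ne_zero]
  refine pow_ne_pow ha hb hirr ?_
  intro h
  have h1 := hl.1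
  rw [Prod.mk.injEq] at h
  omega

/-- the multiples of a line -/
theorem few_all (ha : 1 < a) (hb : 1 < b) {x : ℝ} (hx : 0 < x)
    (l : ℕ × ℕ) (hl : 1 ≤ l.1) (hD : 0 < |a ^ l.1 - b ^ l.2|) :
    ∃ G : Finset ℕ, ((G.card : ℕ) : ℝ) ≤
      1 + max (log (2 * x) + max (-log |a ^ l.1 - b ^ l.2|) 0) 0 / log a * (1 / l.1) ∧
      ∀ g : ℕ, 1 ≤ g → |a ^ (g * l.1) - b ^ (g * l.2)| ≤ x → g ∈ G := by
  classical
  have hA : 0 < log a := log_pos ha
  have hgr : ∀ g : ℕ, 1 ≤ g → |a ^ l.1 - b ^ l.2| ≤ |a ^ (g * l.1) - b ^ (g * l.2)| := by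
    intro g hg
    have h1 := gcd_ineq ha hb l.1 l.2 g hg
    have h2 : 1 ≤ (a ^ l.1) ^ (g - 1) := one_le_pow₀ (one_le_pow₀ ha.le)
    nlinarith [abs_nonneg (a ^ l.1 - b ^ l.2)]
  rcases le_or_gt (|a ^ l.1 - b ^ l.2| / 2) x with h | h
  · obtain ⟨G, hG1, hG2⟩ := few_multiples ha hb (half_pos hD) h l hl
    refine ⟨G, hG1.trans ?_, fun g hg hgx => hG2 g ?_ hgx⟩
    · have e : log (x / (|a ^ l.1 - b ^ l.2| / 2)) = log (2 * x) - log |a ^ l.1 - b ^ l.2| := by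
        rw [← Real.log_div (by positivity) hD.ne']
        congr 1
        field_simp
      rw [e]
      have h1 : log (2 * x) - log |a ^ l.1 - b ^ l.2| ≤
          max (log (2 * x) + max (-log |a ^ l.1 - b ^ l.2|) 0) 0 := by
        refine le_trans ?_ (le_max_left _ _)
        linarith [le_max_left (-log |a ^ l.1 - b ^ l.2|) 0]
      gcongr
    · exact lt_of_lt_of_le (half_lt_self hD) (hgr g hg)
  · refine ⟨∅, ?_, fun g hg hgx => ?_⟩
    · rw [Finset.card_empty]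
      push_cast
      positivity
    · exfalso
      have h1 := hgr g hg
      have h2 := half_lt_self hD
      linarith

/-- the pairs on the lines -/
theorem lines_all (ha : 1 < a) (hb : 1 < b) (hirr : Irrational (log a / log b)) {x : ℝ}
    (hx : 2 ≤ x) (T : ℕ) (F : Finset (ℕ × ℕ)) (hF : ∀ l ∈ F, l ∈ LL a b)
    (hcov : ∀ q ∈ LL a b, q.1 ≤ T → q ∈ F) :
    {p : ℕ × ℕ | (p.1 ≤ T ∧ |a ^ p.1 - b ^ p.2| ≤ x) ∧ x ^ 2 < a ^ p.1}.Finite ∧
    (({p : ℕ × ℕ | (p.1 ≤ T ∧ |a ^ p.1 - b ^ p.2| ≤ x) ∧ x ^ 2 < a ^ p.1}.ncard : ℕ) : ℝ) ≤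
      ∑ l ∈ F, (1 + (log (2 * x) + max (-log |a ^ l.1 - b ^ l.2|) 0) / log a * (1 / l.1)) := by
  classical
  have hx0 : 0 < x := by linarith
  have hA : 0 < log a := log_pos ha
  choose! G hG1 hG2 using fun (l : ℕ × ℕ) (hl : 1 ≤ l.1 ∧ 0 < |a ^ l.1 - b ^ l.2|) =>
    few_all ha hb hx0 l hl.1 hl.2
  have hGF : ∀ l ∈ F, 1 ≤ l.1 ∧ 0 < |a ^ l.1 - b ^ l.2| :=
    fun l hl => ⟨(hF l hl).1, LL_pos ha hb hirr (hF l hl)⟩
  set H : Finset (ℕ × ℕ) := F.biUnion
    fun l => (G l).image fun g => (g * l.1, g * l.2) with hH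
  have hsub : {p : ℕ × ℕ | (p.1 ≤ T ∧ |a ^ p.1 - b ^ p.2| ≤ x) ∧
      x ^ 2 < a ^ p.1} ⊆ (H : Set (ℕ × ℕ)) := by
    rintro p ⟨⟨h1, h3⟩, h4⟩
    obtain ⟨l, hl, g, rfl⟩ := on_of_large ha hb hx h3 h4
    have hg : g ≠ 0 := by
      rintro rfl
      simp only [zero_mul, pow_zero] at h4
      nlinarith
    have hlF : l ∈ F := hcov l hl ((Nat.le_mul_of_pos_left _ (Nat.pos_of_ne_zero hg)).trans h1)
    rw [Finset.mem_coe, hH, Finset.mem_biUnion]
    refine ⟨l, hlF, ?_⟩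
    rw [Finset.mem_image]
    exact ⟨g, hG2 l (hGF l hlF) g (Nat.pos_of_ne_zero hg) h3, rfl⟩
  refine ⟨(Finset.finite_toSet H).subset hsub, ?_⟩
  have h1 : {p : ℕ × ℕ | (p.1 ≤ T ∧ |a ^ p.1 - b ^ p.2| ≤ x) ∧
      x ^ 2 < a ^ p.1}.ncard ≤ H.card := by
    refine (Set.ncard_le_ncard hsub (Finset.finite_toSet _)).trans ?_
    rw [Set.ncard_coe_finset]
  have h3 : (H.card : ℝ) ≤ ∑ l ∈ F, ((G l).card : ℝ) := by
    have h31 : H.card ≤ ∑ l ∈ F,
        ((G l).image fun g => (g * l.1, g * l.2)).card := Finset.card_biUnion_le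
    have h32 : ∑ l ∈ F, ((G l).image fun g => (g * l.1, g * l.2)).card ≤
        ∑ l ∈ F, (G l).card := Finset.sum_le_sum fun l _ => Finset.card_image_le
    exact_mod_cast h31.trans h32
  have h4 : (({p : ℕ × ℕ | (p.1 ≤ T ∧ |a ^ p.1 - b ^ p.2| ≤ x) ∧
      x ^ 2 < a ^ p.1}.ncard : ℕ) : ℝ) ≤ H.card := by exact_mod_cast h1
  refine h4.trans (h3.trans (Finset.sum_le_sum fun l hl => (hG1 l (hGF l hl)).trans (le_of_eq ?_)))
  congr 3
  have h5 : 0 ≤ log (2 * x) := log_nonneg (by linarith)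
  have h6 : 0 ≤ max (-log |a ^ l.1 - b ^ l.2|) 0 := le_max_right _ _
  exact max_eq_left (by linarith)

/-- the next line is far away if a line is very close -/
theorem gapD (ha : 1 < a) (hb : 1 < b) : ∃ n₁ : ℕ, ∀ p ∈ LL a b, ∀ q ∈ LL a b, n₁ ≤ p.1 →
    p.1 < q.1 → 1 ≤ |a ^ p.1 - b ^ p.2| * q.1 := by
  have hA : 0 < log a := log_pos ha
  have hB : 0 < log b := log_pos hb
  have hs := sqrt_gt ha
  obtain ⟨n₀, hn₀, hnear⟩ := nearS ha hb
  obtain ⟨n₂, hn₂⟩ := pow_unbounded_of_one_lt 2 hs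
  obtain ⟨n₃, hn₃⟩ := pow_unbounded_of_one_lt (4 / log b) ha
  refine ⟨max n₀ (max n₂ n₃), fun p hp q hq hn hpq => ?_⟩
  have hn0 : n₀ ≤ p.1 := (le_max_left _ _).trans hn
  have hn2 : n₂ ≤ p.1 := ((le_max_left _ _).trans (le_max_right _ _)).trans hn
  have hn3 : n₃ ≤ p.1 := ((le_max_right _ _).trans (le_max_right _ _)).trans hn
  set D := |a ^ p.1 - b ^ p.2| with hD
  have hap : 0 < a ^ p.1 := by positivity
  have hbp : 0 < b ^ p.2 := by positivity
  have hsp : 2 < √a ^ p.1 := lt_of_lt_of_le hn₂ (pow_le_pow_right₀ hs.le hn2)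
  have hDs : D < √a ^ p.1 := by
    have h1 : D ^ 2 < (√a ^ p.1) ^ 2 := by
      rw [← sq_sqrt_pow ha]
      exact hp.2.2
    exact lt_of_pow_lt_pow_left₀ 2 (by positivity) h1
  have hDa : D / a ^ p.1 ≤ 1 / 2 := by
    rw [div_le_div_iff₀ hap (by norm_num), sq_sqrt_pow ha p.1]
    nlinarith
  have h1 : |(p.1 : ℝ) * log a - p.2 * log b| ≤ 2 * (D / a ^ p.1) := by
    have e1 : b ^ p.2 / a ^ p.1 - 1 = -(a ^ p.1 - b ^ p.2) / a ^ p.1 := by
      field_simp
      ring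
    have e2 : |b ^ p.2 / a ^ p.1 - 1| = D / a ^ p.1 := by
      rw [e1, abs_div, abs_neg, abs_of_pos hap]
    have h2 := abs_log_le (y := b ^ p.2 / a ^ p.1) (by rw [e2]; exact hDa)
    rw [Real.log_div hbp.ne' hap.ne', Real.log_pow, Real.log_pow, e2] at h2
    rw [abs_sub_comm]
    exact h2
  have hnq := hnear q (LL_sub hq) (by omega)
  obtain ⟨h3, h4⟩ := hnq
  have hq0 : (0 : ℝ) < q.1 := by exact_mod_cast (by omega : 0 < q.1)
  have hp0 : (0 : ℝ) < p.1 := by exact_mod_cast (by have := hp.1; omega : 0 < p.1)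
  have hSq : 0 < √a ^ q.1 := by positivity
  set θ := log a / log b with hθ
  have h5 : |(p.1 : ℝ) * θ - p.2| ≤ 2 * (D / a ^ p.1) / log b := by
    have e : (p.1 : ℝ) * θ - p.2 = ((p.1 : ℝ) * log a - p.2 * log b) / log b := by
      rw [hθ]
      field_simp
    rw [e, abs_div, abs_of_pos hB]
    exact div_le_div_of_nonneg_right h1 hB.le
  have hne : (p.2 : ℤ) * q.1 - q.2 * p.1 ≠ 0 := by
    intro h
    have h3 : p.2 * q.1 = q.2 * p.1 := by
      have : (p.2 : ℤ) * q.1 = q.2 * p.1 := by linarith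
      exact_mod_cast this
    have h4 : q.1 ∣ p.1 := by
      have : q.1 ∣ q.2 * p.1 := ⟨p.2, by rw [← h3]; ring⟩
      exact (Nat.Coprime.dvd_of_dvd_mul_left hq.2.1 this)
    have := Nat.le_of_dvd (by have := hp.1; omega) h4
    omega
  have h6 : (1 : ℝ) ≤ |(p.2 : ℝ) * q.1 - q.2 * p.1| := by
    have := Int.one_le_abs hne
    exact_mod_cast this
  have e : (p.2 : ℝ) * q.1 - q.2 * p.1 =
      (p.1 : ℝ) * ((q.1 : ℝ) * θ - q.2) - (q.1 : ℝ) * ((p.1 : ℝ) * θ - p.2) := by ring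
  rw [e] at h6
  have h8 := abs_sub ((p.1 : ℝ) * ((q.1 : ℝ) * θ - q.2)) ((q.1 : ℝ) * ((p.1 : ℝ) * θ - p.2))
  rw [abs_mul, abs_mul, abs_of_pos hp0, abs_of_pos hq0] at h8
  have hpq' : (p.1 : ℝ) ≤ q.1 := by exact_mod_cast hpq.le
  have h9 : (p.1 : ℝ) * |(q.1 : ℝ) * θ - q.2| ≤ 1 / 2 := by
    have h10 : (p.1 : ℝ) * |(q.1 : ℝ) * θ - q.2| ≤ q.1 * (2 / log b / √a ^ q.1) :=
      mul_le_mul hpq' h4 (abs_nonneg _) hq0.le
    refine h10.trans ?_
    have e2 : (q.1 : ℝ) * (2 / log b / √a ^ q.1) = (4 * q.1) / (log b * √a ^ q.1) / 2 := by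
      field_simp
      ring
    rw [e2]
    have h11 : (4 * (q.1 : ℝ)) / (log b * √a ^ q.1) ≤ 1 := by
      rw [div_le_one (by positivity)]
      exact h3.le
    linarith
  have h12 : (1 : ℝ) / 2 ≤ q.1 * |(p.1 : ℝ) * θ - p.2| := by linarith
  have h13 : (1 : ℝ) / 2 ≤ q.1 * (2 * (D / a ^ p.1) / log b) :=
    h12.trans (mul_le_mul_of_nonneg_left h5 hq0.le)
  have h14 : 4 / log b ≤ a ^ p.1 :=
    hn₃.le.trans (pow_le_pow_right₀ ha.le hn3)
  have h15 : (q.1 : ℝ) * (2 * (D / a ^ p.1) / log b) = D * q.1 * (4 / log b / a ^ p.1) / 2 := by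
    field_simp
    ring
  rw [h15] at h13
  have h16 : 4 / log b / a ^ p.1 ≤ 1 := by
    rw [div_le_one hap]
    exact h14
  have h17 : 0 ≤ D * q.1 := by positivity
  nlinarith [mul_le_mul_of_nonneg_left h16 h17]

theorem le_tow : ∀ k : ℕ, k + 1 ≤ tow k
  | 0 => le_rfl
  | k + 1 => by
    have h1 := le_tow k
    have h2 : 2 ^ (k + 1) ≤ 2 ^ tow k := Nat.pow_le_pow_right (by norm_num) h1
    have h3 : k + 1 < 2 ^ (k + 1) := Nat.lt_two_pow_self
    show k + 1 + 1 ≤ 2 ^ tow k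
    omega

theorem two_pow_le_tow : ∀ k : ℕ, 2 ^ k ≤ tow k
  | 0 => le_rfl
  | k + 1 => Nat.pow_le_pow_right (by norm_num) (le_tow k)

/-- the pairs on the lines, if the last line below `T` is not too close -/
theorem scale_lines (ha : 1 < a) (hb : 1 < b) (hirr : Irrational (log a / log b)) :
    ∃ C : ℝ, 0 ≤ C ∧ ∃ n₂ : ℕ, ∀ (x : ℝ) (T : ℕ), ∀ l ∈ LL a b, 2 ≤ x → n₂ ≤ l.1 →
      (l.1 : ℝ) ≤ x → (∀ q ∈ LL a b, q.1 ≤ T → q.1 ≤ l.1) →
      max (-log |a ^ l.1 - b ^ l.2|) 0 ≤ l.1 * log x →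
      {p : ℕ × ℕ | (p.1 ≤ T ∧ |a ^ p.1 - b ^ p.2| ≤ x) ∧ x ^ 2 < a ^ p.1}.Finite ∧
      (({p : ℕ × ℕ | (p.1 ≤ T ∧ |a ^ p.1 - b ^ p.2| ≤ x) ∧ x ^ 2 < a ^ p.1}.ncard : ℕ) : ℝ) ≤
        C * log x := by
  classical
  have hA : 0 < log a := log_pos ha
  have hl2 : 0 < log 2 := log_pos (by norm_num)
  obtain ⟨n₀, lam, -, -, -, -, g1, -, -⟩ := gaps ha hb
  obtain ⟨n₁, hgap⟩ := gapD ha hb
  obtain ⟨C₁, hC₁⟩ := thin ha hb
  obtain ⟨C₂, hC₂0, hC₂⟩ := sum_LL ha hb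
  have hF0 := LL_fin ha hb (max n₀ n₁)
  set c : ℝ := ∑ q ∈ hF0.toFinset, max (-log |a ^ q.1 - b ^ q.2|) 0 with hc
  have hc0 : 0 ≤ c := Finset.sum_nonneg fun _ _ => le_max_right _ _
  refine ⟨(1 / log 2 + 1 / log 2 + C₁ / log 2) + (2 / log a * C₂ + ((1 + c / log 2) * C₂ + 1) / log a),
    by positivity, max n₀ n₁, fun x T l hl hx hn hlx hlast hDl => ?_⟩
  have hx0 : 0 < x := by linarith
  have hlogx : log 2 ≤ log x := Real.log_le_log (by norm_num) hx
  have hlogx0 : 0 < log x := by linarith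
  have hF := LL_fin ha hb l.1
  have hmemF : ∀ q, q ∈ hF.toFinset ↔ (q ∈ LL a b ∧ q.1 ≤ l.1) := fun q => by simp
  obtain ⟨f1, h1⟩ := lines_all ha hb hirr hx T hF.toFinset
    (fun q hq => ((hmemF q).1 hq).1) (fun q hq hqT => (hmemF q).2 ⟨hq, hlast q hq hqT⟩)
  refine ⟨f1, h1.trans ?_⟩
  -- number of lines
  set k : ℕ := ⌈log x / log 2⌉₊ with hk
  have hk1 : (k : ℝ) ≤ log x / log 2 + 1 := (Nat.ceil_lt_add_one (by positivity)).le
  have hk2 : x ≤ 2 ^ k := by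
    have h2 : log x / log 2 ≤ k := Nat.le_ceil _
    rw [div_le_iff₀ hl2] at h2
    rw [← Real.log_le_log_iff hx0 (by positivity), Real.log_pow]
    exact h2
  have hlk : l.1 ≤ tow k := by
    have h2 : (l.1 : ℝ) ≤ ((2 ^ k : ℕ) : ℝ) := by
      push_cast
      exact hlx.trans hk2
    exact (by exact_mod_cast h2 : l.1 ≤ 2 ^ k).trans (two_pow_le_tow k)
  have hcard : (hF.toFinset.card : ℝ) ≤ k + C₁ := by
    have h2 := hC₁ k
    rw [Set.ncard_eq_toFinset_card _ (LL_fin ha hb (tow k))] at h2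
    have h3 : hF.toFinset.card ≤ (LL_fin ha hb (tow k)).toFinset.card := by
      apply Finset.card_le_card
      intro q hq
      rw [Set.Finite.mem_toFinset] at hq ⊢
      exact ⟨hq.1, hq.2.trans hlk⟩
    exact_mod_cast h3.trans h2
  have hsum := hC₂ hF.toFinset (fun q hq => ((hmemF q).1 hq).1)
  -- the distances
  have hdist : ∑ q ∈ hF.toFinset, max (-log |a ^ q.1 - b ^ q.2|) 0 * (1 / (q.1 : ℝ)) ≤
      ((1 + c / log 2) * C₂ + 1) * log x := by
    have h2 : ∀ q ∈ hF.toFinset, max (-log |a ^ q.1 - b ^ q.2|) 0 * (1 / (q.1 : ℝ)) ≤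
        (1 + c / log 2) * log x * (1 / q.1) + if q = l then log x else 0 := by
      intro q hq
      obtain ⟨hq1, hq2⟩ := (hmemF q).1 hq
      have hq0 : (0 : ℝ) < q.1 := by exact_mod_cast hq1.1
      have hcl : c ≤ c / log 2 * log x := by
        rw [div_mul_eq_mul_div, le_div_iff₀ hl2]
        exact mul_le_mul_of_nonneg_left hlogx hc0
      have hnn : 0 ≤ (1 + c / log 2) * log x * (1 / (q.1 : ℝ)) := by positivity
      by_cases hql : q = l
      · rw [if_pos hql, hql]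
        have hl0 : (0 : ℝ) < l.1 := by rw [← hql]; exact hq0
        have h3 : max (-log |a ^ l.1 - b ^ l.2|) 0 * (1 / (l.1 : ℝ)) ≤ log x := by
          rw [mul_one_div, div_le_iff₀ hl0]
          linarith
        rw [hql] at hnn
        linarith
      · rw [if_neg hql, add_zero]
        have hle : max (-log |a ^ q.1 - b ^ q.2|) 0 ≤ (1 + c / log 2) * log x := by
          rcases le_or_gt (max n₀ n₁) q.1 with h3 | h3
          · have h4 : q.1 ≠ l.1 := fun h =>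
              hql (g1 q hq1 l hl ((le_max_left _ _).trans h3) h)
            have h5 := hgap q hq1 l hl ((le_max_right _ _).trans h3) (lt_of_le_of_ne hq2 h4)
            have hD := LL_pos ha hb hirr hq1
            have hl0 : (0 : ℝ) < l.1 := by exact_mod_cast hl.1
            have h6 : 0 ≤ log (|a ^ q.1 - b ^ q.2| * l.1) := log_nonneg h5
            rw [Real.log_mul hD.ne' hl0.ne'] at h6
            have h7 : log (l.1 : ℝ) ≤ log x := Real.log_le_log hl0 hlx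
            have h8 : 0 ≤ c / log 2 * log x := by positivity
            have e1 : (1 + c / log 2) * log x = log x + c / log 2 * log x := by ring
            rw [e1]
            exact max_le (by linarith) (by linarith)
          · have h4 : max (-log |a ^ q.1 - b ^ q.2|) 0 ≤ c := by
              rw [hc]
              exact Finset.single_le_sum (f := fun q : ℕ × ℕ => max (-log |a ^ q.1 - b ^ q.2|) 0)
                (fun _ _ => le_max_right _ _) (by
                  rw [Set.Finite.mem_toFinset]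
                  exact ⟨hq1, h3.le⟩)
            have e1 : (1 + c / log 2) * log x = log x + c / log 2 * log x := by ring
            rw [e1]
            linarith
        exact mul_le_mul_of_nonneg_right hle (by positivity)
    refine (Finset.sum_le_sum h2).trans ?_
    rw [Finset.sum_add_distrib, ← Finset.mul_sum, Finset.sum_ite_eq' hF.toFinset l]
    have h3 : (if l ∈ hF.toFinset then log x else 0) ≤ log x := by
      split_ifs <;> linarith
    have h4 : (1 + c / log 2) * log x * ∑ q ∈ hF.toFinset, 1 / (q.1 : ℝ) ≤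
        (1 + c / log 2) * log x * C₂ := mul_le_mul_of_nonneg_left hsum (by positivity)
    have e1 : ((1 + c / log 2) * C₂ + 1) * log x = (1 + c / log 2) * log x * C₂ + log x := by ring
    rw [e1]
    linarith
  have hl2x : log (2 * x) ≤ 2 * log x := by
    rw [Real.log_mul (by norm_num) hx0.ne']
    linarith
  have e2 : ∑ q ∈ hF.toFinset, (1 + (log (2 * x) + max (-log |a ^ q.1 - b ^ q.2|) 0) / log a *
      (1 / (q.1 : ℝ))) = hF.toFinset.card + log (2 * x) / log a * ∑ q ∈ hF.toFinset, 1 / (q.1 : ℝ) +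
      (∑ q ∈ hF.toFinset, max (-log |a ^ q.1 - b ^ q.2|) 0 * (1 / (q.1 : ℝ))) / log a := by
    rw [Finset.sum_add_distrib, Finset.sum_const, nsmul_eq_mul, mul_one, add_assoc, Finset.mul_sum,
      Finset.sum_div, ← Finset.sum_add_distrib]
    congr 1
    refine Finset.sum_congr rfl fun q _ => ?_
    ring
  rw [e2]
  have h5 : log (2 * x) / log a * ∑ q ∈ hF.toFinset, 1 / (q.1 : ℝ) ≤ 2 / log a * C₂ * log x := by
    have h6 : log (2 * x) / log a ≤ 2 * log x / log a := by gcongr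
    have h7 : 0 ≤ ∑ q ∈ hF.toFinset, 1 / (q.1 : ℝ) := Finset.sum_nonneg fun _ _ => by positivity
    calc log (2 * x) / log a * ∑ q ∈ hF.toFinset, 1 / (q.1 : ℝ)
        ≤ (2 * log x / log a) * C₂ := mul_le_mul h6 hsum h7 (by positivity)
      _ = _ := by ring
  have h6 : (∑ q ∈ hF.toFinset, max (-log |a ^ q.1 - b ^ q.2|) 0 * (1 / (q.1 : ℝ))) / log a ≤
      ((1 + c / log 2) * C₂ + 1) / log a * log x := by
    rw [div_mul_eq_mul_div]
    gcongr
  have h7 : (1 : ℝ) ≤ 1 / log 2 * log x := by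
    rw [div_mul_eq_mul_div, le_div_iff₀ hl2]
    linarith
  have h8 : (C₁ : ℝ) ≤ C₁ / log 2 * log x := by
    rw [div_mul_eq_mul_div, le_div_iff₀ hl2]
    exact mul_le_mul_of_nonneg_left hlogx (Nat.cast_nonneg _)
  have e3 : ((1 / log 2 + 1 / log 2 + C₁ / log 2) +
      (2 / log a * C₂ + ((1 + c / log 2) * C₂ + 1) / log a)) * log x =
      log x / log 2 + 1 / log 2 * log x + C₁ / log 2 * log x + 2 / log a * C₂ * log x +
      ((1 + c / log 2) * C₂ + 1) / log a * log x := by ring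
  rw [e3]
  linarith

end Pool.Agent.NH22.NC
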