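import Pool.Agent.NH22.NC.Scale

/-!
# The count of the pairs with `n ≤ T` at most scales: main theorem
-/

set_option autoImplicit false

namespace Pool.Agent.NH22.NC

open Real Filter Set
open Pool.Agent.H491R3.PE Pool.Agent.TH709.NC

variable {a b : ℝ}

/-- the count, given a bound for the pairs on the lines -/
theorem total (ha : 1 < a) (hb : 1 < b) : ∃ C₁ : ℝ, 0 ≤ C₁ ∧ ∀ (x C : ℝ) (T : ℕ), 2 ≤ x → 0 ≤ C →
    C₁ * log x ≤ T →
    ({p : ℕ × ℕ | (p.1 ≤ T ∧ |a ^ p.1 - b ^ p.2| ≤ x) ∧ x ^ 2 < a ^ p.1}.Finite ∧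
    (({p : ℕ × ℕ | (p.1 ≤ T ∧ |a ^ p.1 - b ^ p.2| ≤ x) ∧ x ^ 2 < a ^ p.1}.ncard : ℕ) : ℝ) ≤
      C * log x) →
    {p : ℕ × ℕ | p.1 ≤ T ∧ |a ^ p.1 - b ^ p.2| ≤ x}.Finite ∧
    |(({p : ℕ × ℕ | p.1 ≤ T ∧ |a ^ p.1 - b ^ p.2| ≤ x}.ncard : ℕ) : ℝ) -
      log x ^ 2 / (log a * log b)| ≤ (C₁ + C) * log x := by
  have hA : 0 < log a := log_pos ha
  obtain ⟨C₁, hC₁0, hC₁⟩ := NB_count ha hb
  refine ⟨C₁ + 2 / log a, by positivity, fun x C T hx hC hCT hlines => ?_⟩
  obtain ⟨f3, h3⟩ := hlines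
  have hx0 : 0 < x := by linarith
  have hlx0 : 0 < log x := log_pos (by linarith)
  obtain ⟨f1, h1⟩ := hC₁ x hx
  set S := {p : ℕ × ℕ | p.1 ≤ T ∧ |a ^ p.1 - b ^ p.2| ≤ x} with hS
  set S3 := {p : ℕ × ℕ | (p.1 ≤ T ∧ |a ^ p.1 - b ^ p.2| ≤ x) ∧ x ^ 2 < a ^ p.1} with hS3
  have hTT : 2 * log x / log a ≤ T := by
    refine le_trans ?_ hCT
    have e : (C₁ + 2 / log a) * log x = C₁ * log x + 2 * log x / log a := by ring
    rw [e]
    have : 0 ≤ C₁ * log x := by positivity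
    linarith
  have lx2 : log (x ^ 2) = 2 * log x := by rw [Real.log_pow]; norm_num
  have hdec : S = NB a b x ∪ S3 := by
    ext p
    simp only [mem_union, hS, hS3, mem_ofPred_eq, NB]
    constructor
    · rintro ⟨h4, h6⟩
      rcases le_or_gt (a ^ p.1) (x ^ 2) with h7 | h7
      · exact Or.inl ⟨h6, h7⟩
      · exact Or.inr ⟨⟨h4, h6⟩, h7⟩
    · rintro (⟨h4, h5⟩ | ⟨h4, -⟩)
      · refine ⟨?_, h4⟩
        have h7 := (pow_le_iff_log ha (by positivity) p.1).1 h5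
        rw [lx2] at h7
        exact_mod_cast h7.trans hTT
      · exact h4
  rw [hdec]
  refine ⟨f1.union f3, ?_⟩
  have h5 : ((NB a b x ∪ S3).ncard : ℝ) = (NB a b x).ncard + S3.ncard := by
    have hdis : Disjoint (NB a b x) S3 := by
      rw [Set.disjoint_left]
      rintro p hp hp3
      exact absurd hp3.2 (not_lt.2 hp.2)
    have := Set.ncard_union_eq hdis f1 f3
    exact_mod_cast this
  rw [h5]
  have h7 : (0 : ℝ) ≤ S3.ncard := Nat.cast_nonneg _
  have h8 : 0 ≤ 2 / log a * log x := by positivity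
  have h9 : 0 ≤ C * log x := by positivity
  have e3 : (C₁ + 2 / log a + C) * log x = C₁ * log x + 2 / log a * log x + C * log x := by ring
  rw [e3]
  rw [abs_le] at h1 ⊢
  constructor <;> linarith [h1.1, h1.2]

theorem ev_pow {r : ℝ} (hr : 1 < r) (K : ℝ) : ∃ N : ℕ, ∀ n ≥ N, K ≤ r ^ n ∧ (n : ℝ) ≤ r ^ n := by
  obtain ⟨n₁, hn₁⟩ := pow_unbounded_of_one_lt K hr
  have h := (tendsto_pow_const_div_const_pow_of_one_lt 1 hr).eventually (gt_mem_nhds one_pos)
  obtain ⟨n₂, hn₂⟩ := Filter.eventually_atTop.1 h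
  refine ⟨max n₁ n₂, fun n hn => ⟨?_, ?_⟩⟩
  · exact hn₁.le.trans (pow_le_pow_right₀ hr.le ((le_max_left _ _).trans hn))
  · have h1 := hn₂ n ((le_max_right _ _).trans hn)
    have h2 : 0 < r ^ n := by positivity
    rw [pow_one, div_lt_one h2] at h1
    exact h1.le

/-- **Main theorem.** -/
theorem scales (ha : 1 < a) (hb : 1 < b) (hirr : Irrational (log a / log b)) :
    ∃ C : ℝ, 0 < C ∧ ∀ A ε X₀ : ℝ, 0 < A → 0 < ε → ∃ X : ℝ, X₀ ≤ X ∧ ∀ x : ℝ, X ^ ε ≤ x → x ≤ X →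
      2 ≤ x ∧ ∀ T : ℕ, C * log x ≤ T → (T : ℝ) ≤ x ^ A →
        {p : ℕ × ℕ | p.1 ≤ T ∧ |a ^ p.1 - b ^ p.2| ≤ x}.Finite ∧
        |(({p : ℕ × ℕ | p.1 ≤ T ∧ |a ^ p.1 - b ^ p.2| ≤ x}.ncard : ℕ) : ℝ) -
          log x ^ 2 / (log a * log b)| ≤ C * log x := by
  classical
  have hA : 0 < log a := log_pos ha
  have hl2 : 0 < log 2 := log_pos (by norm_num)
  obtain ⟨C₁, hC₁0, htot⟩ := total ha hb
  by_cases hinf : ∀ N : ℕ, ∃ l ∈ LL a b, N ≤ l.1
  · obtain ⟨C₂, hC₂0, n₂, hsc⟩ := scale_lines ha hb hirr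
    obtain ⟨n₀, lam, -, hlam, hlam1, -, -, -, g3⟩ := gaps ha hb
    obtain ⟨n₁, hgap⟩ := gapD ha hb
    refine ⟨C₁ + C₂ + 1, by positivity, fun A ε X₀ hA0 hε => ?_⟩
    have hA1 : 0 < A + 1 := by linarith
    set r : ℝ := (2 : ℝ) ^ (lam * (ε / (A + 1))) with hr
    set s : ℝ := (2 : ℝ) ^ (lam * (1 / (A + 1))) with hs
    have hr1 : 1 < r := Real.one_lt_rpow (by norm_num) (by positivity)
    have hs1 : 1 < s := Real.one_lt_rpow (by norm_num) (by positivity)
    obtain ⟨m₁, hm₁⟩ := ev_pow hr1 2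
    obtain ⟨m₂, hm₂⟩ := ev_pow hs1 X₀
    obtain ⟨m₃, hm₃⟩ := exists_nat_ge ((A + 1) / ε)
    obtain ⟨l₁, hl₁, hN⟩ := hinf (max (max (max n₀ n₁) n₂) (max (max m₁ m₂) m₃))
    obtain ⟨q, hq, hqN⟩ := hinf (l₁.1 + 1)
    have hBfin : {l | l ∈ LL a b ∧ l.1 < q.1}.Finite :=
      (LL_fin ha hb q.1).subset fun l hl => ⟨hl.1, hl.2.le⟩
    have hBne : hBfin.toFinset.Nonempty := ⟨l₁, by
      rw [Set.Finite.mem_toFinset]
      exact ⟨hl₁, by omega⟩⟩
    obtain ⟨l, hlB, hlmax⟩ := Finset.exists_max_image hBfin.toFinset (fun l => l.1) hBne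
    rw [Set.Finite.mem_toFinset] at hlB
    obtain ⟨hl, hlq⟩ := hlB
    have hll : l₁.1 ≤ l.1 := hlmax l₁ (by
      rw [Set.Finite.mem_toFinset]
      exact ⟨hl₁, by omega⟩)
    have hN' : max (max (max n₀ n₁) n₂) (max (max m₁ m₂) m₃) ≤ l.1 := hN.trans hll
    have hln0 : n₀ ≤ l.1 := by omega
    have hln1 : n₁ ≤ l.1 := by omega
    have hln2 : n₂ ≤ l.1 := by omega
    have hlm1 : m₁ ≤ l.1 := by omega
    have hlm2 : m₂ ≤ l.1 := by omega
    have hlm3 : m₃ ≤ l.1 := by omega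
    have hl0 : 0 < l.1 := by have := hl.1; omega
    have hl0' : (0 : ℝ) < l.1 := by exact_mod_cast hl0
    have hq1 : (1 : ℝ) < q.1 := by
      have : 1 < q.1 := by omega
      exact_mod_cast this
    have hq0 : (0 : ℝ) < q.1 := by linarith
    have hq2 : (2 : ℝ) ^ (lam * (l.1 : ℝ)) ≤ q.1 := by
      refine (g3 l hl q hq hln0 hlq).trans ?_
      nlinarith
    have hqlog : 0 < log (q.1 : ℝ) := log_pos hq1
    set X : ℝ := (q.1 : ℝ) ^ (1 / (A + 1)) with hX
    have hXpos : 0 < X := by positivity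
    have hX0 : X₀ ≤ X := by
      refine (hm₂ l.1 hlm2).1.trans ?_
      rw [hs, hX, ← Real.rpow_natCast, ← Real.rpow_mul (by norm_num)]
      calc (2 : ℝ) ^ (lam * (1 / (A + 1)) * (l.1 : ℝ))
          = ((2 : ℝ) ^ (lam * (l.1 : ℝ))) ^ (1 / (A + 1)) := by
            rw [← Real.rpow_mul (by norm_num)]
            congr 1
            ring
        _ ≤ (q.1 : ℝ) ^ (1 / (A + 1)) :=
            Real.rpow_le_rpow (by positivity) hq2 (by positivity)
    refine ⟨X, hX0, fun x hx1 hx2 => ?_⟩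
    have hXε : r ^ l.1 ≤ x := by
      refine le_trans ?_ hx1
      rw [hr, hX, ← Real.rpow_natCast, ← Real.rpow_mul (by norm_num), ← Real.rpow_mul hq0.le]
      calc (2 : ℝ) ^ (lam * (ε / (A + 1)) * (l.1 : ℝ))
          = ((2 : ℝ) ^ (lam * (l.1 : ℝ))) ^ (1 / (A + 1) * ε) := by
            rw [← Real.rpow_mul (by norm_num)]
            congr 1
            ring
        _ ≤ (q.1 : ℝ) ^ (1 / (A + 1) * ε) :=
            Real.rpow_le_rpow (by positivity) hq2 (by positivity)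
    obtain ⟨h2r, hlr⟩ := hm₁ l.1 hlm1
    have hx2' : 2 ≤ x := h2r.trans hXε
    have hx0 : 0 < x := by linarith
    have hlx0 : 0 < log x := log_pos (by linarith)
    have hlx : (l.1 : ℝ) ≤ x := hlr.trans hXε
    refine ⟨hx2', fun T hT1 hT2 => ?_⟩
    have hTq : T < q.1 := by
      have h1 : x ^ A ≤ X ^ A := Real.rpow_le_rpow hx0.le hx2 hA0.le
      have h2 : X ^ A < q.1 := by
        rw [hX, ← Real.rpow_mul hq0.le]
        calc (q.1 : ℝ) ^ (1 / (A + 1) * A) < (q.1 : ℝ) ^ (1 : ℝ) := by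
              apply Real.rpow_lt_rpow_of_exponent_lt hq1
              rw [one_div, inv_mul_lt_iff₀ hA1]
              linarith
          _ = q.1 := Real.rpow_one _
      have h3 : (T : ℝ) < q.1 := lt_of_le_of_lt (hT2.trans h1) h2
      exact_mod_cast h3
    have hlog : log (q.1 : ℝ) ≤ l.1 * log x := by
      have h1 : log (X ^ ε) ≤ log x := Real.log_le_log (by positivity) hx1
      rw [Real.log_rpow hXpos, hX, Real.log_rpow hq0] at h1
      have h2 : (A + 1) / ε ≤ l.1 := hm₃.trans (by exact_mod_cast hlm3)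
      calc log (q.1 : ℝ) = (A + 1) / ε * (ε * (1 / (A + 1) * log (q.1 : ℝ))) := by
            field_simp
        _ ≤ l.1 * log x := mul_le_mul h2 h1 (by positivity) hl0'.le
    have hD := LL_pos ha hb hirr hl
    have hDl : max (-log |a ^ l.1 - b ^ l.2|) 0 ≤ l.1 * log x := by
      have h5 := hgap l hl q hq hln1 hlq
      have h6 : 0 ≤ log (|a ^ l.1 - b ^ l.2| * q.1) := log_nonneg h5
      rw [Real.log_mul hD.ne' hq0.ne'] at h6
      exact max_le (by linarith) (by positivity)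
    obtain ⟨f, h⟩ := htot x C₂ T hx2' hC₂0 (by nlinarith) (hsc x T l hl hx2' hln2 hlx
      (fun q' hq' hq'T => hlmax q' (by
        rw [Set.Finite.mem_toFinset]
        exact ⟨hq', by omega⟩)) hDl)
    refine ⟨f, h.trans ?_⟩
    nlinarith
  · push Not at hinf
    obtain ⟨N, hN⟩ := hinf
    have hF := LL_fin ha hb N
    set F := hF.toFinset with hFd
    have hmem : ∀ l ∈ LL a b, l ∈ F := fun l hl => by
      rw [hFd, Set.Finite.mem_toFinset]
      exact ⟨hl, (hN l hl).le⟩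
    have hmem' : ∀ l ∈ F, l ∈ LL a b := fun l hl => by
      rw [hFd, Set.Finite.mem_toFinset] at hl
      exact hl.1
    set c : ℝ := ∑ q ∈ F, max (-log |a ^ q.1 - b ^ q.2|) 0 with hc
    have hc0 : 0 ≤ c := Finset.sum_nonneg fun _ _ => le_max_right _ _
    set C₂ : ℝ := F.card * (1 / log 2 + (2 + c / log 2) / log a) with hC₂
    have hC₂0 : 0 ≤ C₂ := by positivity
    refine ⟨C₁ + C₂ + 1, by positivity, fun A ε X₀ hA0 hε =>
      ⟨max X₀ ((2 : ℝ) ^ (1 / ε)), le_max_left _ _, fun x hx1 hx2 => ?_⟩⟩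
    have hx2' : 2 ≤ x := by
      refine le_trans ?_ hx1
      calc (2 : ℝ) = ((2 : ℝ) ^ (1 / ε)) ^ ε := by
            rw [← Real.rpow_mul (by norm_num), one_div, inv_mul_cancel₀ hε.ne', Real.rpow_one]
        _ ≤ _ := Real.rpow_le_rpow (by positivity) (le_max_right _ _) hε.le
    have hx0 : 0 < x := by linarith
    have hlogx : log 2 ≤ log x := Real.log_le_log (by norm_num) hx2'
    have hlx0 : 0 < log x := by linarith
    refine ⟨hx2', fun T hT1 hT2 => ?_⟩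
    obtain ⟨f1, h1⟩ := lines_all ha hb hirr hx2' T F hmem' (fun q hq _ => hmem q hq)
    have h2 : ∀ l ∈ F, (1 + (log (2 * x) + max (-log |a ^ l.1 - b ^ l.2|) 0) / log a *
        (1 / (l.1 : ℝ))) ≤ (1 / log 2 + (2 + c / log 2) / log a) * log x := by
      intro l hl
      have hl1 : (1 : ℝ) ≤ l.1 := by exact_mod_cast (hmem' l hl).1
      have h3 : (1 : ℝ) / l.1 ≤ 1 := by
        rw [div_le_one (by linarith)]
        exact hl1
      have h4 : max (-log |a ^ l.1 - b ^ l.2|) 0 ≤ c := by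
        rw [hc]
        exact Finset.single_le_sum (f := fun q : ℕ × ℕ => max (-log |a ^ q.1 - b ^ q.2|) 0)
          (fun _ _ => le_max_right _ _) hl
      have hl2x : log (2 * x) ≤ 2 * log x := by
        rw [Real.log_mul (by norm_num) hx0.ne']
        linarith
      have h2x0 : 0 ≤ log (2 * x) := log_nonneg (by linarith)
      have h5 : c ≤ c / log 2 * log x := by
        rw [div_mul_eq_mul_div, le_div_iff₀ hl2]
        exact mul_le_mul_of_nonneg_left hlogx hc0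
      have h6 : (log (2 * x) + max (-log |a ^ l.1 - b ^ l.2|) 0) / log a ≤
          (2 + c / log 2) / log a * log x := by
        rw [div_mul_eq_mul_div]
        gcongr
        have e1 : (2 + c / log 2) * log x = 2 * log x + c / log 2 * log x := by ring
        rw [e1]
        linarith
      have h7 : 0 ≤ (log (2 * x) + max (-log |a ^ l.1 - b ^ l.2|) 0) / log a := by
        have : 0 ≤ max (-log |a ^ l.1 - b ^ l.2|) 0 := le_max_right _ _
        positivity
      have h8 : (log (2 * x) + max (-log |a ^ l.1 - b ^ l.2|) 0) / log a * (1 / (l.1 : ℝ)) ≤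
          (log (2 * x) + max (-log |a ^ l.1 - b ^ l.2|) 0) / log a * 1 :=
        mul_le_mul_of_nonneg_left h3 h7
      have h9 : (1 : ℝ) ≤ 1 / log 2 * log x := by
        rw [div_mul_eq_mul_div, le_div_iff₀ hl2]
        linarith
      have e2 : (1 / log 2 + (2 + c / log 2) / log a) * log x =
        1 / log 2 * log x + (2 + c / log 2) / log a * log x := by ring
      rw [e2]
      linarith
    have h3 := Finset.sum_le_sum h2
    rw [Finset.sum_const, nsmul_eq_mul, ← mul_assoc] at h3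
    obtain ⟨f, h⟩ := htot x C₂ T hx2' hC₂0 (by nlinarith) ⟨f1, h1.trans h3⟩
    refine ⟨f, h.trans ?_⟩
    nlinarith

end Pool.Agent.NH22.NC
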